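import Mathlib
import Pool.Agent.H31.Dim

/-!
# Disjoint continua and large topological Hausdorff dimension: a counterexample

There is a non-empty compact metric space `K` of infinite topological Hausdorff dimension in
which every family of pairwise disjoint non-degenerate continua is countable. Hence for every
real `c > 1` one has `dim_tH K >= c`, but there is no family of pairwise disjoint non-degenerate
continua all of whose transversals have Hausdorff dimension at least `c - 1`.

Outline (see the files in `Pool/Agent/H31`). `YY` is a closed subset of `[-1,1]^(List Q)`: the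
coordinate at `q :: s` equals `sin (1 / rad (q :: s) y)`, where
`rad (q :: s) y = rad s y + |y s - q|`, and it is free when this radius vanishes. So the point
where `y s = q` inside the layer `rad s y = 0` is resolved into a new layer `rad (q :: s) y = 0`,
on which the rest of the continuum accumulates; this is done at all rationals and at all depths.
`KK` is the quotient of `Cantor x YY` by `(x, y) ~ (x + z, y)` when `y` lies in the layer of some
list `s`, its `s`-coordinate is the (irrational) number `ee z`, and `z` vanishes at the first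
`encode s` places. Any two strands in the same zone of level `encode s` meet inside the layer of
`s`, each point lies on at most two strands, and every non-degenerate continuum contains the part
of some strand above some layer. Finally the metric is changed, within the same topology, so that
every set meeting all strands has infinite Hausdorff dimension.
-/

open Set Topology Filter MeasureTheory
open scoped ENNReal NNReal

namespace Pool.Agent.Results.MP_ab9307_an.SuslinianExample

open Pool.Agent.H31

/-- Hausdorff dimension with the convention that the empty set has dimension `-1`. -/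
noncomputable def hausdorffDim {X : Type*} [MetricSpace X] (S : Set X) : EReal :=
  open Classical in if S = ∅ then -1 else ((dimH S : ℝ≥0∞) : EReal)

/-- Topological Hausdorff dimension of a metric space: `-1` for the empty space, otherwise the
infimum of the reals `d ≥ 0` for which the space has a basis of open sets all of whose boundaries
have Hausdorff dimension at most `d - 1`. -/
noncomputable def topHausdorffDim (X : Type*) [MetricSpace X] : EReal :=
  open Classical in if IsEmpty X then -1 else
    sInf {t : EReal | ∃ d : ℝ, t = (d : EReal) ∧ 0 ≤ d ∧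
      ∃ 𝒰 : Set (Set X), TopologicalSpace.IsTopologicalBasis 𝒰 ∧
        ∀ U ∈ 𝒰, hausdorffDim (frontier U) ≤ ((d - 1 : ℝ) : EReal)}

/-- `X` contains a family of pairwise disjoint non-degenerate continua such that every set meeting
every member of the family has Hausdorff dimension at least `c - 1`. -/
def HasDisjointFamily (X : Type*) [MetricSpace X] (c : ℝ) : Prop :=
  ∃ ℱ : Set (Set X), (∀ A ∈ ℱ, IsCompact A ∧ IsConnected A ∧ A.Nontrivial) ∧
    ℱ.PairwiseDisjoint id ∧
    ∀ S : Set X, (∀ A ∈ ℱ, (S ∩ A).Nonempty) → ((c - 1 : ℝ) : EReal) ≤ hausdorffDim S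

lemma meets_frontier {Z : Type*} [TopologicalSpace Z] {L U : Set Z} (hL : IsPreconnected L)
    (hU : IsOpen U) {a b : Z} (ha : a ∈ L) (hb : b ∈ L) (haU : a ∈ U) (hbU : b ∉ U) :
    (L ∩ frontier U).Nonempty := by
  by_contra hcon
  rw [Set.not_nonempty_iff_eq_empty] at hcon
  have hfr : ∀ z ∈ L, z ∈ closure U → z ∈ U := by
    intro z hz hzc
    by_contra hzU
    have : z ∈ L ∩ frontier U := ⟨hz, by rw [hU.frontier_eq]; exact ⟨hzc, hzU⟩⟩
    rw [hcon] at this; exact this
  obtain ⟨z, _, hz1, hz2⟩ := hL U (closure U)ᶜ hU isClosed_closure.isOpen_compl (by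
    intro z hz
    by_cases h : z ∈ closure U
    · exact Or.inl (hfr z hz h)
    · exact Or.inr h) ⟨a, ha, haU⟩ ⟨b, hb, fun h => hbU (hfr b hb h)⟩
  exact hz2 (subset_closure hz1)

lemma dimH_le_of_hausdorffDim {X : Type*} [MetricSpace X] {S : Set X} {d : ℝ}
    (h : hausdorffDim S ≤ (d : EReal)) : dimH S ≤ ENNReal.ofReal d := by
  unfold hausdorffDim at h
  split_ifs at h with h0
  · rw [h0, dimH_empty]; exact bot_le
  · rw [← EReal.coe_ennreal_le_coe_ennreal_iff, EReal.coe_ennreal_ofReal]
    exact h.trans (by exact_mod_cast le_max_left d 0)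

lemma strand_preconnected (x : CC) : IsPreconnected (range (pr x)) := by
  have : PreconnectedSpace YY := Subtype.preconnectedSpace isPreconnected_YY
  exact isPreconnected_range (pr_cont.comp (continuous_const.prodMk continuous_id))

lemma exists_two (x : CC) : ∃ y y' : YY, pr x y ≠ pr x y' := by
  obtain ⟨y0, hy0⟩ := YY_nonempty
  obtain ⟨y, hy, _, h1⟩ := exists_point_val (σ := []) hy0 rfl (v := 1) (by constructor <;> norm_num)
  obtain ⟨y', hy', _, h2⟩ := exists_point_val (σ := []) hy0 rfl (v := -1)
    (by constructor <;> norm_num)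
  refine ⟨⟨y, hy⟩, ⟨y', hy'⟩, fun h => ?_⟩
  have h3 := (pr_eq.1 h).1
  have h4 : y = y' := congrArg Subtype.val h3
  rw [h4, h2] at h1
  norm_num at h1

instance : Nonempty KK := by
  obtain ⟨y0, hy0⟩ := YY_nonempty
  exact ⟨pr (fun _ => false) ⟨y0, hy0⟩⟩

lemma no_basis (d : ℝ) (𝒰 : Set (Set KK)) (h𝒰 : TopologicalSpace.IsTopologicalBasis 𝒰)
    (h : ∀ U ∈ 𝒰, @dimH KK mK.toEMetricSpace (frontier U) ≤ ENNReal.ofReal d) : False := by
  have hsc : SecondCountableTopology KK := secondCountable_quot st_closed
  obtain ⟨𝒱, h𝒱𝒰, h𝒱c, h𝒱⟩ := h𝒰.exists_countable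
  have hS := dimH_top (⋃ U ∈ 𝒱, frontier U) (by
    intro x
    obtain ⟨y, y', hne⟩ := exists_two x
    obtain ⟨U, hU, hyU, hUs⟩ := h𝒱.exists_subset_of_mem_open
      (show pr x y ∈ ({pr x y'} : Set KK)ᶜ from hne) isOpen_compl_singleton
    obtain ⟨_, ⟨y2, rfl⟩, h2⟩ := meets_frontier (strand_preconnected x) (h𝒱.isOpen hU)
      ⟨y, rfl⟩ ⟨y', rfl⟩ hyU (fun h => hUs h rfl)
    exact ⟨y2, mem_biUnion hU h2⟩)
  rw [@dimH_bUnion _ KK mK.toEMetricSpace _ h𝒱c] at hS
  have h1 : (⨆ U ∈ 𝒱, @dimH KK mK.toEMetricSpace (frontier U)) ≤ ENNReal.ofReal d :=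
    iSup₂_le fun U hU => h U (h𝒱𝒰 hU)
  rw [hS, top_le_iff] at h1
  exact ENNReal.ofReal_ne_top h1

theorem result : ∃ (K : Type) (_ : MetricSpace K), Nonempty K ∧ CompactSpace K ∧
    ∀ c : ℝ, 1 < c → (c : EReal) ≤ topHausdorffDim K ∧ ¬ HasDisjointFamily K c := by
  refine ⟨KK, mK, inferInstance, (inferInstance : CompactSpace KK), fun c hc => ⟨?_, ?_⟩⟩
  · unfold topHausdorffDim
    rw [if_neg (not_isEmpty_of_nonempty KK)]
    refine le_sInf ?_
    rintro _ ⟨d, rfl, _, 𝒰, h𝒰, h⟩
    exfalso
    exact no_basis (d - 1) 𝒰 h𝒰 (fun U hU => @dimH_le_of_hausdorffDim KK mK _ _ (h U hU))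
  · rintro ⟨ℱ, hF, hd, h⟩
    have hcount : ℱ.Countable := countable_of_pairwiseDisjoint
      (fun A hA => ⟨(hF A hA).1, (hF A hA).2.1.isPreconnected, (hF A hA).2.2⟩) hd
    choose! f hf using fun A (hA : A ∈ ℱ) => (hF A hA).2.1.nonempty
    have h1 := h (f '' ℱ) (fun A hA => ⟨f A, ⟨A, hA, rfl⟩, hf A hA⟩)
    have h2 : @dimH KK mK.toEMetricSpace (f '' ℱ) = 0 :=
      @dimH_countable KK mK.toEMetricSpace _ (hcount.image f)
    have h3 : @hausdorffDim KK mK (f '' ℱ) ≤ 0 := by
      unfold hausdorffDim
      split_ifs with h0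
      · simp
      · rw [h2]; simp
    have h4 := h1.trans h3
    have h5 : (c - 1 : ℝ) ≤ 0 := by exact_mod_cast h4
    linarith

end Pool.Agent.Results.MP_ab9307_an.SuslinianExample
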